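import Pool.Agent.Q283.FG.Stm1
import Pool.Agent.Q14.LK.Bas

/-!
# Project FG (helper283), job SH1 (helper247): when does some `D` fit?
-/

set_option autoImplicit false

namespace Pool.Agent.Q247.FG

open NumberField IsDedekindDomain Finset
open Pool.Agent.Q7.LK
open Pool.Agent.Q283.LQ (Sm nS)
open Pool.Agent.Q283.FG
open Pool.Agent.Q14.LK

section Nr

variable {F : Type} [Field F] [NumberField F]

theorem nr_mul (hB : S_BAS) {y : ℕ} {a b : F} (ha : Nr y a) (hb : Nr y b) : Nr y (a * b) :=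
  ⟨nn_mul hB ha.1 hb.1, fun φ => by rw [map_mul]; exact mul_pos (ha.2 φ) (hb.2 φ)⟩

theorem nr_div (hB : S_BAS) {y : ℕ} {a b : F} (ha : Nr y a) (hb : Nr y b) : Nr y (a / b) :=
  ⟨nn_div hB ha.1 hb.1, fun φ => by rw [map_div₀]; exact div_pos (ha.2 φ) (hb.2 φ)⟩

theorem nr_pp (hB : S_BAS) (y : ℕ) {a : F} (ha : a ≠ 0) : Nr y (a ^ 2) :=
  ⟨nn_pp hB y ha, fun φ => by
    rw [map_pow]
    have h : φ a ≠ 0 := (map_ne_zero φ).2 ha
    positivity⟩

theorem nr_of_mul_pp (hB : S_BAS) {y : ℕ} {a x : F} (hx : x ≠ 0) (h : Nr y (a * x ^ 2)) : Nr y a := by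
  have h1 := nr_div hB h (nr_pp hB y hx)
  rwa [mul_div_assoc, div_self (pow_ne_zero 2 hx), mul_one] at h1

theorem nr_of_isPow (hB : S_BAS) (y : ℕ) {a : F} (ha : a ≠ 0) (h : IsPow 2 a) : Nr y a := by
  obtain ⟨x, hx⟩ := h
  rw [hx]
  apply nr_pp hB y
  rintro rfl
  rw [zero_pow two_ne_zero] at hx
  exact ha hx

theorem nr_prod (hB : S_BAS) {y : ℕ} {ι : Type} (s : Finset ι) (a : ι → F) (ha : ∀ i ∈ s, Nr y (a i)) :
    Nr y (∏ i ∈ s, a i) :=
  ⟨nn_prod hB s a fun i hi => (ha i hi).1, fun φ => by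
    rw [map_prod]
    exact prod_pos fun i hi => (ha i hi).2 φ⟩

end Nr

/-- **JOB SH1** -/
theorem sh1 (hB : S_BAS) : Pool.Agent.Q283.FG.S_SH1 := by
  classical
  intro F _ _ ζ hζ y f u r π g B D0 ψ w hD0 hw k q hq hS τ hτ
  obtain ⟨P, hP⟩ : ∃ P, P = ∏ j, π (q j) := ⟨_, rfl⟩
  have hπ : ∀ j, π (q j) ≠ 0 := fun j => (B.po (q j) (hS j)).1
  have hP0 : P ≠ 0 := by
    rw [hP]
    exact prod_ne_zero_iff.2 fun j _ => hπ j
  have hvP : ∀ v, ¬ Sm y v → vl 2 v P = ∑ i, if q i = v then (1 : ZMod 2) else 0 := by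
    intro v hv
    rw [hP, vl_prod hB v _ _ fun j _ => hπ j]
    refine sum_congr rfl fun j _ => ?_
    have h0 := (B.po (q j) (hS j)).2 v hv
    by_cases h : q j = v
    · rw [if_pos h, h0.1 h.symm]
    · rw [if_neg h, h0.2 fun h' => h h'.symm]
  have hψ : ∑ j, (1 : ZMod 2) • τ.1 j = ∑ j, τ.1 j := sum_congr rfl fun j _ => one_smul _ _
  -- the class of the product
  have hPc : Nr y (P * mon r (∑ j, (1 : ZMod 2) • τ.1 j)) := by
    have h1 : Nr y (∏ j, (π (q j) * mon r (τ.1 j))) := by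
      apply nr_prod hB
      intro j _
      have h2 := B.pc (q j) (hS j)
      have h3 : (fun l => sy 2 ζ (q j) (u l)) = τ.1 j := funext fun l => hτ.1 j l
      rwa [h3] at h2
    obtain ⟨t, ht, h4⟩ := mon_sum B.re univ (fun j => τ.1 j)
    have h5 : ∏ j, (π (q j) * mon r (τ.1 j)) = P * mon r (∑ j, (1 : ZMod 2) • τ.1 j) * t ^ 2 := by
      rw [prod_mul_distrib, ← hP, h4, hψ]
      ring
    rw [h5] at h1
    exact nr_of_mul_pp hB ht h1
  have key : ∀ D, FR y D0 q D → ∑ j, (1 : ZMod 2) • τ.1 j = ψ ∧ IsPow 2 (D * mon u w / P) := by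
    rintro D ⟨hD, hDs⟩
    have hDP : ∀ v, ¬ Sm y v → vl 2 v (D / P) = 0 := by
      intro v hv
      rw [vl_div hB v hD.ne hP0, hvP v hv, hD.ram v hv, sub_self]
    obtain ⟨c, hc⟩ := B.full (D / P) (div_ne_zero hD.ne hP0) hDP
    have hmc : mon u c ≠ 0 := mon_ne B.ue c
    have h1 : Nr y (D / P * mon u c) := nr_of_isPow hB y (mul_ne_zero (div_ne_zero hD.ne hP0) hmc) hc
    have h2 : Nr y (D / D0) := ⟨⟨div_ne_zero hD.ne hD0, hD.loc⟩, hDs⟩
    have h3 := nr_div hB (nr_mul hB h1 hPc) h2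
    have hD' := hD.ne
    have h4 : D / P * mon u c * (P * mon r (∑ j, (1 : ZMod 2) • τ.1 j)) / (D / D0) =
        D0 * mon r (∑ j, (1 : ZMod 2) • τ.1 j) * mon u c := by
      field_simp
    rw [h4] at h3
    obtain ⟨x, _, hx⟩ := B.cls D0 hD0
    have h6 := hx (∑ j, (1 : ZMod 2) • τ.1 j, c) h3
    have h7 := hx (ψ, w) hw
    have h8 : ((∑ j, (1 : ZMod 2) • τ.1 j, c) : (Fin f → ZMod 2) × (Fin f → ZMod 2)) = (ψ, w) :=
      h6.trans h7.symm
    have h9 : ∑ j, (1 : ZMod 2) • τ.1 j = ψ := congrArg Prod.fst h8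
    have h10 : c = w := congrArg Prod.snd h8
    refine ⟨h9, ?_⟩
    have h11 : D * mon u w / P = D / P * mon u c := by rw [h10]; ring
    rw [h11]
    exact hc
  refine ⟨⟨fun ⟨D, hD⟩ => (key D hD).1, fun h => ?_⟩, fun D hD => by rw [← hP]; exact (key D hD).2⟩
  have hmw : mon u w ≠ 0 := mon_ne B.ue w
  have hmr : mon r ψ ≠ 0 := mon_ne B.re ψ
  have hNn : Nr y (P / mon u w / D0) := by
    have h1 := nr_div hB hPc hw
    rw [h] at h1
    have h2 : P * mon r ψ / (D0 * mon r ψ * mon u w) = P / mon u w / D0 := by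
      field_simp
    rwa [h2] at h1
  refine ⟨P / mon u w, ⟨div_ne_zero hP0 hmw, fun v hv => ?_, hNn.1.2⟩, hNn.2⟩
  rw [vl_div hB v hP0 hmw, hvP v hv, vl_mon hB B.ue v (fun l => B.uo l v hv) w, sub_zero]

end Pool.Agent.Q247.FG
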